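import Mathlib
import Pool.Agent.R246.Radon

/-!
# Vaguely null measures with non-null Fourier transforms
-/

namespace Pool.Agent.Results.MP_831e37_an.HighFrequencyGhost

open MeasureTheory Filter Topology Set FourierTransform Convolution Pool.Agent.R246 Polynomial
open scoped ENNReal

noncomputable section

/-- `ℝ^d`. -/
abbrev Rd (d : ℕ) := EuclideanSpace ℝ (Fin d)

/-- `K₂(ℝ^d)`, the linear span of the convolutions `f * h` with `f, h ∈ C_c(ℝ^d)`. -/
def K2 (d : ℕ) : Submodule ℂ (Rd d → ℂ) :=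
  Submodule.span ℂ {g | ∃ f h : Rd d → ℂ, Continuous f ∧ HasCompactSupport f ∧ Continuous h ∧
    HasCompactSupport h ∧ g = f ⋆[ContinuousLinearMap.mul ℂ ℂ, volume] h}

/-- `ν` is the Fourier transform of the measure `μ`: for all `g ∈ K₂(ℝ^d)`, the inverse Fourier
transform `𝓕⁻ g (x) = ∫ g(t) exp (2 π i x·t) dt` is in `L¹(|ν|)`, and `μ(g) = ν(𝓕⁻ g)`. -/
def IsFourierTransform {d : ℕ} (μ ν : CRadon (Rd d)) : Prop :=
  ∀ g ∈ K2 d, Integrable (𝓕⁻ g) ν.absM ∧ μ.integral g = ν.integral (𝓕⁻ g)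

/-- the exponential polynomial `q(exp (2 π i e ⟨v, x⟩))` -/
def expo {d : ℕ} (q : ℂ[X]) (e : ℝ) (v : Rd d) (x : Rd d) : ℂ :=
  q.eval (Complex.exp (((2 * Real.pi * (e * inner ℝ v x) : ℝ) : ℂ) * Complex.I))

lemma expo_continuous {d : ℕ} (q : ℂ[X]) (e : ℝ) (v : Rd d) : Continuous (expo q e v) := by
  unfold expo
  refine q.continuous.comp ?_
  fun_prop

/-- the coefficient function of the transform -/
def coef {d : ℕ} (q : ℂ[X]) (e : ℝ) (v : Rd d) (y : Rd d) : ℂ :=
  open Classical in ∑ j ∈ q.support, if ((j : ℝ) * e) • v = y then q.coeff j else 0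

lemma coef_meas {d : ℕ} (q : ℂ[X]) (e : ℝ) (v : Rd d) : Measurable (coef q e v) := by
  classical
  unfold coef
  refine Finset.measurable_sum _ fun j _ => ?_
  refine Measurable.ite ?_ measurable_const measurable_const
  have : {a : Rd d | ((j : ℝ) * e) • v = a} = {((j : ℝ) * e) • v} := by
    ext a; simp [eq_comm]
  rw [this]
  exact measurableSet_singleton _

def atoms {d : ℕ} (q : ℂ[X]) (e : ℝ) (v : Rd d) : Finset (Rd d) :=
  open Classical in q.support.image fun j : ℕ => ((j : ℝ) * e) • v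

def timeM {d : ℕ} (q : ℂ[X]) (e : ℝ) (v : Rd d) : CRadon (Rd d) :=
  CRadon.ofDensity (expo q e v) (expo_continuous q e v)

def freqM {d : ℕ} (q : ℂ[X]) (e : ℝ) (v : Rd d) : CRadon (Rd d) :=
  CRadon.ofAtoms (atoms q e v) (coef q e v) (coef_meas q e v)

lemma inj {d : ℕ} {e : ℝ} (he : e ≠ 0) {v : Rd d} (hv : v ≠ 0) :
    Function.Injective fun j : ℕ => ((j : ℝ) * e) • v := by
  intro i j h
  have h1 := smul_left_injective ℝ hv h
  have h2 := mul_right_cancel₀ he h1
  exact_mod_cast h2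

lemma freq_integral {d : ℕ} (q : ℂ[X]) {e : ℝ} (he : e ≠ 0) {v : Rd d} (hv : v ≠ 0)
    (f : Rd d → ℂ) : (freqM q e v).integral f = ∑ j ∈ q.support, f (((j : ℝ) * e) • v) * q.coeff j := by
  classical
  unfold freqM
  rw [CRadon.integral_ofAtoms]
  unfold atoms
  rw [Finset.sum_image fun i _ j _ h => inj he hv h]
  refine Finset.sum_congr rfl fun j hj => ?_
  congr 1
  unfold coef
  rw [Finset.sum_eq_single j]
  · rw [if_pos rfl]
  · intro i _ hij
    rw [if_neg]
    intro h; exact hij (inj he hv h)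
  · intro h; exact absurd hj h

lemma K2_integrable {d : ℕ} {g : Rd d → ℂ} (hg : g ∈ K2 d) : Integrable g := by
  refine Submodule.span_induction (p := fun g _ => Integrable g) ?_ ?_ ?_ ?_ hg
  · rintro _ ⟨f, h, hf, hfc, hh, hhc, rfl⟩
    exact (hf.integrable_of_hasCompactSupport hfc).integrable_convolution _
      (hh.integrable_of_hasCompactSupport hhc)
  · exact integrable_zero _ _ _
  · intro a b _ _ ha hb; exact ha.add hb
  · intro c a _ ha; exact ha.smul c

lemma isFT {d : ℕ} (q : ℂ[X]) {e : ℝ} (he : e ≠ 0) {v : Rd d} (hv : v ≠ 0) :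
    IsFourierTransform (timeM q e v) (freqM q e v) := by
  intro g hg
  have hgi := K2_integrable hg
  refine ⟨CRadon.integrable_ofAtoms _ _ _ _, ?_⟩
  rw [freq_integral q he hv]
  unfold timeM
  rw [CRadon.integral_ofDensity]
  have h1 : ∀ x, g x * expo q e v x = ∑ j ∈ q.support,
      (Complex.exp (((2 * Real.pi * inner ℝ x (((j : ℝ) * e) • v) : ℝ) : ℂ) * Complex.I) • g x)
        * q.coeff j := by
    intro x
    unfold expo
    rw [Polynomial.eval_eq_sum, Polynomial.sum_def, Finset.mul_sum]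
    refine Finset.sum_congr rfl fun j _ => ?_
    rw [← Complex.exp_nat_mul]
    have : (j : ℂ) * (((2 * Real.pi * (e * inner ℝ v x) : ℝ) : ℂ) * Complex.I) =
        ((2 * Real.pi * inner ℝ x (((j : ℝ) * e) • v) : ℝ) : ℂ) * Complex.I := by
      rw [inner_smul_right, real_inner_comm]; push_cast; ring
    rw [this, smul_eq_mul]; ring
  simp_rw [h1]
  have hint : ∀ w : Rd d, Integrable fun x =>
      Complex.exp (((2 * Real.pi * inner ℝ x w : ℝ) : ℂ) * Complex.I) • g x := by
    intro w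
    refine hgi.mono ?_ (Eventually.of_forall fun x => ?_)
    · exact (by fun_prop : Continuous fun x : Rd d =>
        Complex.exp (((2 * Real.pi * inner ℝ x w : ℝ) : ℂ) * Complex.I)).aestronglyMeasurable.smul
        hgi.aestronglyMeasurable
    · rw [norm_smul, Complex.norm_exp_ofReal_mul_I, one_mul]
  rw [integral_finsetSum _ fun j _ => (hint _).mul_const _]
  refine Finset.sum_congr rfl fun j _ => ?_
  rw [integral_mul_const, Real.fourierInv_eq']

/-- the polynomial `(1 - (1 - X)^M)^N` -/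
def pol (M N : ℕ) : ℂ[X] := (1 - (1 - X) ^ M) ^ N

lemma pol_coeff {M N : ℕ} (_hM : 0 < M) {j : ℕ} (hj : j < N) : (pol M N).coeff j = 0 := by
  have h1 : (X : ℂ[X]) ∣ 1 - (1 - X) ^ M := by
    rw [Polynomial.X_dvd_iff, Polynomial.coeff_zero_eq_eval_zero]; simp
  have h2 : (X : ℂ[X]) ^ N ∣ pol M N := pow_dvd_pow_of_dvd h1 N
  exact (Polynomial.X_pow_dvd_iff.1 h2) j hj

lemma pol_small (N : ℕ) {δ : ℝ} (hδ : 0 < δ) : ∃ M : ℕ, 0 < M ∧ ∀ z : ℂ, ‖1 - z‖ ≤ 1 / 2 →
    ‖1 - (pol M N).eval z‖ ≤ δ := by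
  have hcont : Continuous fun w : ℂ => 1 - (1 - w) ^ N := by fun_prop
  have h0 : Tendsto (fun w : ℂ => 1 - (1 - w) ^ N) (𝓝 0) (𝓝 0) := by
    have := hcont.tendsto 0; simpa using this
  rw [Metric.tendsto_nhds_nhds] at h0
  obtain ⟨η, hη, h⟩ := h0 δ hδ
  obtain ⟨M, hM⟩ := exists_pow_lt_of_lt_one hη (by norm_num : (1 / 2 : ℝ) < 1)
  refine ⟨M + 1, Nat.succ_pos _, fun z hz => ?_⟩
  have h1 : ‖(1 - z) ^ (M + 1)‖ < η := by
    rw [norm_pow]
    calc ‖1 - z‖ ^ (M + 1) ≤ (1 / 2 : ℝ) ^ (M + 1) := pow_le_pow_left₀ (norm_nonneg _) hz _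
      _ ≤ (1 / 2 : ℝ) ^ M := pow_le_pow_of_le_one (by norm_num) (by norm_num) (Nat.le_succ _)
      _ < η := hM
  have h2 := h (x := (1 - z) ^ (M + 1)) (by rwa [dist_zero_right])
  rw [dist_zero_right] at h2
  have e : (pol (M + 1) N).eval z = (1 - (1 - z) ^ (M + 1)) ^ N := by simp [pol]
  rw [e]
  exact h2.le

/-- for every `R` and `δ > 0` there is an exponential polynomial, close to `0` on the ball of radius
`R`, whose transform is `δ₀` plus atoms outside the ball of radius `R` -/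
lemma exists_q {d : ℕ} (v : Rd d) (hv : ‖v‖ = 1) {R δ : ℝ} (hR : 0 < R) (hδ : 0 < δ) :
    ∃ (q : ℂ[X]) (e : ℝ), 0 < e ∧ (∀ x : Rd d, ‖x‖ ≤ R → ‖expo q e v x‖ ≤ δ) ∧ q.coeff 0 = 1 ∧
      ∀ j, j ≠ 0 → q.coeff j ≠ 0 → R < (j : ℝ) * e := by
  set e : ℝ := 1 / (16 * R) with he
  have he0 : 0 < e := by positivity
  obtain ⟨N, hN⟩ := exists_nat_gt (R / e)
  obtain ⟨M, hM, hsmall⟩ := pol_small (N + 1) hδ
  refine ⟨1 - pol M (N + 1), e, he0, fun x hx => ?_, ?_, fun j hj hc => ?_⟩
  · unfold expo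
    rw [Polynomial.eval_sub, Polynomial.eval_one]
    apply hsmall
    have h1 : |2 * Real.pi * (e * inner ℝ v x)| ≤ 1 / 2 := by
      have h2 : |inner ℝ v x| ≤ R := by
        refine (abs_real_inner_le_norm _ _).trans ?_
        rw [hv, one_mul]; exact hx
      rw [abs_mul (2 * Real.pi), abs_mul e, abs_of_pos he0, abs_of_pos (by positivity : 0 < 2 * Real.pi)]
      have h3 : e * |inner ℝ v x| ≤ 1 / 16 := by
        calc e * |inner ℝ v x| ≤ e * R := mul_le_mul_of_nonneg_left h2 he0.le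
          _ = 1 / 16 := by rw [he]; field_simp
      nlinarith [Real.pi_lt_four, Real.pi_pos]
    have h4 := Real.norm_exp_I_mul_ofReal_sub_one_le (x := 2 * Real.pi * (e * inner ℝ v x))
    rw [norm_sub_rev, mul_comm _ Complex.I]
    exact h4.trans h1
  · rw [Polynomial.coeff_sub, pol_coeff hM (Nat.succ_pos _)]; simp
  · have hjN : N + 1 ≤ j := by
      by_contra hcon
      push Not at hcon
      apply hc
      rw [Polynomial.coeff_sub, pol_coeff hM hcon, Polynomial.coeff_one, if_neg hj, sub_zero]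
    have h1 : R / e < (j : ℝ) := hN.trans_le (by exact_mod_cast (by omega : N ≤ j))
    rwa [div_lt_iff₀ he0] at h1

/-- For every `d ≥ 1` there are measures `νₙ` on `ℝ^d` with Fourier transforms `nuHatₙ` such that
`νₙ → 0` vaguely and `nuHatₙ → μ` vaguely with `μ ≠ 0` (there is a function of `C_c(ℝ^d)` with
nonzero `μ`-integral); one can take `μ(f) = f(0)` for all `f`, the Dirac measure at the origin. -/
theorem result (d : ℕ) (hd : 1 ≤ d) : ∃ (ν nuHat : ℕ → CRadon (Rd d)) (μ : CRadon (Rd d)),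
    (∀ n, IsFourierTransform (ν n) (nuHat n)) ∧ CRadon.VagueTendsto ν CRadon.zero ∧
    CRadon.VagueTendsto nuHat μ ∧ (∀ f : Rd d → ℂ, μ.integral f = f 0) ∧
    (∃ f : Rd d → ℂ, Continuous f ∧ HasCompactSupport f ∧ μ.integral f ≠ 0) := by
  classical
  set v : Rd d := EuclideanSpace.single ⟨0, hd⟩ (1 : ℝ) with hvdef
  have hv : ‖v‖ = 1 := by rw [hvdef]; simp
  have hv0 : v ≠ 0 := by rw [← norm_ne_zero_iff, hv]; norm_num
  choose q e he hsmall hq0 hqj using fun n : ℕ =>
    exists_q v hv (R := (n : ℝ) + 1) (δ := 1 / ((n : ℝ) + 1)) (by positivity) (by positivity)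
  refine ⟨fun n => timeM (q n) (e n) v, fun n => freqM (q n) (e n) v,
    CRadon.ofAtoms {0} (fun _ => 1) measurable_const, fun n => isFT _ (he n).ne' hv0, ?_, ?_, ?_, ?_⟩
  · intro f hf hfc
    rw [CRadon.integral_zero]
    have hfi : Integrable fun x => ‖f x‖ := (hf.integrable_of_hasCompactSupport hfc).norm
    obtain ⟨R, hR⟩ := hfc.isCompact.isBounded.exists_norm_le
    have hlim : Tendsto (fun n : ℕ => (1 / ((n : ℝ) + 1)) * ∫ x, ‖f x‖) atTop (𝓝 0) := by
      have := (tendsto_one_div_add_atTop_nhds_zero_nat (𝕜 := ℝ)).mul_const (∫ x, ‖f x‖)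
      simpa using this
    refine squeeze_zero_norm' ?_ hlim
    filter_upwards [eventually_ge_atTop ⌈R⌉₊] with n hn
    unfold timeM
    rw [CRadon.integral_ofDensity, ← integral_const_mul]
    apply norm_integral_le_of_norm_le (hfi.const_mul _)
    refine Eventually.of_forall fun x => ?_
    by_cases hx : f x = 0
    · rw [hx]; simp
    · have hxR : ‖x‖ ≤ (n : ℝ) + 1 := by
        have h1 := hR x (subset_tsupport f hx)
        have h2 : R ≤ n := (Nat.le_ceil R).trans (by exact_mod_cast hn)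
        linarith
      rw [norm_mul, mul_comm]
      exact mul_le_mul_of_nonneg_right (hsmall n x hxR) (norm_nonneg _)
  · intro f hf hfc
    rw [CRadon.integral_ofAtoms]
    obtain ⟨R, hR⟩ := hfc.isCompact.isBounded.exists_norm_le
    refine tendsto_const_nhds.congr' ?_
    filter_upwards [eventually_ge_atTop ⌈R⌉₊] with n hn
    rw [freq_integral (q n) (he n).ne' hv0, Finset.sum_singleton, Finset.sum_eq_single 0]
    · rw [hq0]; simp
    · intro j hj hj0
      have h1 := hqj n j hj0 (Polynomial.mem_support_iff.1 hj)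
      have h2 : f (((j : ℝ) * e n) • v) = 0 := by
        by_contra hcon
        have h3 := hR _ (subset_tsupport f hcon)
        rw [norm_smul, hv, mul_one, Real.norm_eq_abs,
          abs_of_nonneg (mul_nonneg (Nat.cast_nonneg _) (he n).le)] at h3
        have h4 : R ≤ n := (Nat.le_ceil R).trans (by exact_mod_cast hn)
        linarith
      rw [h2, zero_mul]
    · intro h
      exfalso; apply h
      rw [Polynomial.mem_support_iff, hq0]; norm_num
  · intro f
    rw [CRadon.integral_ofAtoms]; simp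
  · obtain ⟨f, hf1, hf2, hf3, hf4⟩ := exists_contDiff_tsupport_subset (E := Rd d) (n := 0)
      (s := univ) (x := 0) univ_mem
    refine ⟨fun x => (f x : ℂ), ?_, ?_, ?_⟩
    · exact Complex.continuous_ofReal.comp hf3.continuous
    · exact hf2.comp_left (g := fun r : ℝ => (r : ℂ)) Complex.ofReal_zero
    · rw [CRadon.integral_ofAtoms]
      simp [hf4]

end

end Pool.Agent.Results.MP_831e37_an.HighFrequencyGhost
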